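import Mathlib

open scoped BigOperators ENNReal Topology
open Filter

namespace Pool.Agent.Results.MP_e9a5f2_an.ConditionalPropertyA

section Definitions

variable {𝕜 : Type} [RCLike 𝕜] {X : Type} [NormedAddCommGroup X] [NormedSpace 𝕜 X]

/-- `(e n)` is a semi-normalized Markushevich basis of `X` with biorthogonal functionals
`(f n)`. -/
structure IsBasis (e : ℕ → X) (f : ℕ → X →L[𝕜] 𝕜) : Prop where
  biorthogonal : ∀ k n, f k (e n) = if k = n then 1 else 0
  dense_span : Dense (Submodule.span 𝕜 (Set.range e) : Set X)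
  total : ∀ x : X, (∀ n, f n x = 0) → x = 0
  seminormalized : ∃ C : ℝ, ∀ n, ‖e n‖ ≤ C ∧ ‖f n‖ ≤ C

/-- `(e n)` is a Schauder basis: the partial sums in the natural order converge to `x`. -/
def Schauder (e : ℕ → X) (f : ℕ → X →L[𝕜] 𝕜) : Prop :=
  ∀ x : X, Tendsto (fun N => ∑ n ∈ Finset.range N, f n x • e n) atTop (𝓝 x)

/-- Property (A), symmetry for largest coefficients. -/
def PropertyA (e : ℕ → X) (f : ℕ → X →L[𝕜] 𝕜) : Prop :=
  ∀ (x : X) (A B : Finset ℕ) (ε η : ℕ → 𝕜), (∀ n, ‖f n x‖ ≤ 1) → A.card = B.card →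
    Disjoint A B → (∀ n ∈ A ∪ B, f n x = 0) → (∀ n ∈ A, ‖ε n‖ = 1) → (∀ n ∈ B, ‖η n‖ = 1) →
    ‖x + ∑ n ∈ A, ε n • e n‖ = ‖x + ∑ n ∈ B, η n • e n‖

/-- The basis is unconditional: `∑ f n x • e n` converges unconditionally to `x`, for
every `x`. -/
def Unconditional (e : ℕ → X) (f : ℕ → X →L[𝕜] 𝕜) : Prop :=
  ∀ x : X, HasSum (fun n => f n x • e n) x

end Definitions

/-! ### The weight -/

/-- The weight `w i = 1 / √(⌊i/2⌋ + 1)`. -/
noncomputable def w (i : ℕ) : ℝ := 1 / √((i / 2 : ℕ) + 1)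

lemma w_pos (i : ℕ) : 0 < w i := by unfold w; positivity

lemma w_le_one (i : ℕ) : w i ≤ 1 := by
  unfold w
  rw [div_le_one (by positivity)]
  have : (1 : ℝ) ≤ ((i / 2 : ℕ) : ℝ) + 1 := by
    have : (0 : ℝ) ≤ ((i / 2 : ℕ) : ℝ) := Nat.cast_nonneg _
    linarith
  calc (1 : ℝ) = √1 := by simp
    _ ≤ _ := Real.sqrt_le_sqrt this

lemma w_sq (i : ℕ) : w i * w i = 1 / ((i / 2 : ℕ) + 1 : ℝ) := by
  unfold w
  rw [div_mul_div_comm, Real.mul_self_sqrt (by positivity)]
  simp

lemma sum_inv_sqrt (k : ℕ) : ∑ i ∈ Finset.range k, 1 / √((i : ℝ) + 1) ≤ 2 * √(k : ℝ) := by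
  induction k with
  | zero => simp
  | succ k ih =>
    rw [Finset.sum_range_succ]
    have h1 : 0 ≤ √(k : ℝ) := Real.sqrt_nonneg _
    have h2 : 0 < √((k : ℝ) + 1) := Real.sqrt_pos.2 (by positivity)
    have h3 : √(k : ℝ) * √(k : ℝ) = k := Real.mul_self_sqrt (by positivity)
    have h4 : √((k : ℝ) + 1) * √((k : ℝ) + 1) = k + 1 := Real.mul_self_sqrt (by positivity)
    have h5 : √(k : ℝ) ≤ √((k : ℝ) + 1) := Real.sqrt_le_sqrt (by linarith)
    have h6 : 1 / √((k : ℝ) + 1) ≤ 2 * √((k : ℝ) + 1) - 2 * √(k : ℝ) := by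
      rw [div_le_iff₀ h2]
      nlinarith
    push_cast
    linarith

lemma w_le (i : ℕ) : w i ≤ (3 / 2) * (1 / √((i : ℝ) + 1)) := by
  unfold w
  have h1 : 0 < √(((i / 2 : ℕ) : ℝ) + 1) := Real.sqrt_pos.2 (by positivity)
  have h2 : 0 < √((i : ℝ) + 1) := Real.sqrt_pos.2 (by positivity)
  have h3 : (i : ℝ) + 1 ≤ 2 * (((i / 2 : ℕ) : ℝ) + 1) := by
    have : i + 1 ≤ 2 * (i / 2 + 1) := by omega
    exact_mod_cast this
  have h4 : √((i : ℝ) + 1) ≤ (3 / 2) * √(((i / 2 : ℕ) : ℝ) + 1) := by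
    rw [Real.sqrt_le_left (by positivity)]
    rw [mul_pow, Real.sq_sqrt (by positivity)]
    nlinarith
  rw [mul_one_div, div_le_div_iff₀ h1 h2]
  linarith

lemma sum_w (A : Finset ℕ) : ∑ i ∈ A, w i ≤ 5 * √(A.card : ℝ) := by
  set k := A.card with hk
  have h1 : ∑ i ∈ A, 1 / √((i : ℝ) + 1) ≤ 3 * √(k : ℝ) := by
    have hsplit : ∑ i ∈ A, 1 / √((i : ℝ) + 1) =
        ∑ i ∈ A.filter (fun i => i < k), 1 / √((i : ℝ) + 1) +
        ∑ i ∈ A.filter (fun i => ¬ i < k), 1 / √((i : ℝ) + 1) :=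
      (Finset.sum_filter_add_sum_filter_not A (fun i => i < k) _).symm
    have ha : ∑ i ∈ A.filter (fun i => i < k), 1 / √((i : ℝ) + 1) ≤ 2 * √(k : ℝ) := by
      refine le_trans (Finset.sum_le_sum_of_subset_of_nonneg ?_ ?_) (sum_inv_sqrt k)
      · intro i hi
        exact Finset.mem_range.2 (Finset.mem_filter.1 hi).2
      · intro i _ _
        positivity
    have hb : ∑ i ∈ A.filter (fun i => ¬ i < k), 1 / √((i : ℝ) + 1) ≤ √(k : ℝ) := by
      rcases Nat.eq_zero_or_pos k with h0 | h0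
      · have : A = ∅ := Finset.card_eq_zero.1 (by omega)
        simp [this]
      have hkpos : (0 : ℝ) < k := by exact_mod_cast h0
      have hs : 0 < √(k : ℝ) := Real.sqrt_pos.2 hkpos
      calc ∑ i ∈ A.filter (fun i => ¬ i < k), 1 / √((i : ℝ) + 1)
          ≤ ∑ i ∈ A.filter (fun i => ¬ i < k), 1 / √(k : ℝ) := by
            apply Finset.sum_le_sum
            intro i hi
            have hi' : k ≤ i := not_lt.1 (Finset.mem_filter.1 hi).2
            have : (k : ℝ) ≤ (i : ℝ) + 1 := by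
              have : (k : ℝ) ≤ (i : ℝ) := by exact_mod_cast hi'
              linarith
            exact one_div_le_one_div_of_le hs (Real.sqrt_le_sqrt this)
        _ = ((A.filter (fun i => ¬ i < k)).card : ℝ) * (1 / √(k : ℝ)) := by
            rw [Finset.sum_const, nsmul_eq_mul]
        _ ≤ (k : ℝ) * (1 / √(k : ℝ)) := by
            have : ((A.filter (fun i => ¬ i < k)).card : ℝ) ≤ k := by
              exact_mod_cast Finset.card_filter_le _ _
            exact mul_le_mul_of_nonneg_right this (by positivity)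
        _ = √(k : ℝ) := by
            rw [mul_one_div, div_eq_iff hs.ne', Real.mul_self_sqrt hkpos.le]
    linarith
  calc ∑ i ∈ A, w i ≤ ∑ i ∈ A, (3 / 2) * (1 / √((i : ℝ) + 1)) :=
        Finset.sum_le_sum fun i _ => w_le i
    _ = (3 / 2) * ∑ i ∈ A, 1 / √((i : ℝ) + 1) := by rw [Finset.mul_sum]
    _ ≤ (3 / 2) * (3 * √(k : ℝ)) := by linarith
    _ ≤ 5 * √(k : ℝ) := by
        have := Real.sqrt_nonneg (k : ℝ)
        linarith


/-! ### The norming functionals -/

/-- The index set of the norming functionals. -/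
structure Fn (𝕜 : Type) [RCLike 𝕜] : Type where
  L : ℕ
  M : Finset ℕ
  S : Finset ℕ
  ε : ℕ → 𝕜
  c : ℝ
  hε : ∀ i, ‖ε i‖ = 1
  hc : 0 ≤ c
  hS : S.card ≤ M.card
  hU : c * M.card ≤ √(M.card : ℝ) + ∑ i ∈ S, w i
  hM : M.Nonempty

variable {𝕜 : Type} [RCLike 𝕜]

/-- the underlying truncated sequence -/
noncomputable def Fn.h (g : Fn 𝕜) (i : ℕ) : ℝ := if i < g.L ∧ w i ≤ g.c then w i else 0

/-- the coordinates of the functional -/
noncomputable def Fn.val (g : Fn 𝕜) (i : ℕ) : 𝕜 :=
  if i ∈ g.M then (g.c : 𝕜) * g.ε i else if i ∈ g.S then 0 else (g.h i : 𝕜)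

lemma Fn.h_nonneg (g : Fn 𝕜) (i : ℕ) : 0 ≤ g.h i := by
  unfold Fn.h; split_ifs
  · exact (w_pos i).le
  · exact le_rfl

lemma Fn.h_le_c (g : Fn 𝕜) (i : ℕ) : g.h i ≤ g.c := by
  unfold Fn.h; split_ifs with h
  · exact h.2
  · exact g.hc

lemma Fn.h_le_w (g : Fn 𝕜) (i : ℕ) : g.h i ≤ w i := by
  unfold Fn.h; split_ifs with h
  · exact le_rfl
  · exact (w_pos i).le

lemma norm_ofReal' (r : ℝ) : ‖(r : 𝕜)‖ = |r| := RCLike.norm_ofReal r

lemma Fn.norm_val_le (g : Fn 𝕜) (i : ℕ) : ‖g.val i‖ ≤ g.c := by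
  unfold Fn.val
  split_ifs with h1 h2
  · rw [norm_mul, g.hε, norm_ofReal', abs_of_nonneg g.hc, mul_one]
  · simpa using g.hc
  · rw [norm_ofReal', abs_of_nonneg (g.h_nonneg i)]
    exact g.h_le_c i

lemma Fn.val_of_not_mem (g : Fn 𝕜) {i : ℕ} (h1 : i ∉ g.M) (h2 : g.L ≤ i) : g.val i = 0 := by
  unfold Fn.val
  rw [if_neg h1]
  split_ifs with h3
  · rfl
  · unfold Fn.h
    rw [if_neg (by omega)]
    simp

/-- The key bound `c √|M| ≤ 6`. -/
lemma Fn.c_sqrt (g : Fn 𝕜) : g.c * √(g.M.card : ℝ) ≤ 6 := by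
  have hm : (0 : ℝ) < g.M.card := by exact_mod_cast g.hM.card_pos
  have hs : 0 < √(g.M.card : ℝ) := Real.sqrt_pos.2 hm
  have h1 : √(g.M.card : ℝ) * √(g.M.card : ℝ) = g.M.card := Real.mul_self_sqrt hm.le
  have h2 := sum_w g.S
  have h3 : √(g.S.card : ℝ) ≤ √(g.M.card : ℝ) :=
    Real.sqrt_le_sqrt (by exact_mod_cast g.hS)
  have h4 := g.hU
  have h5 : g.c * √(g.M.card : ℝ) * √(g.M.card : ℝ) ≤ 6 * √(g.M.card : ℝ) := by
    rw [mul_assoc, h1]; linarith
  exact le_of_mul_le_mul_right h5 hs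

lemma Fn.c_le (g : Fn 𝕜) : g.c ≤ 6 := by
  have hm : (1 : ℝ) ≤ g.M.card := by exact_mod_cast g.hM.card_pos
  have h1 : 1 ≤ √(g.M.card : ℝ) := Real.one_le_sqrt.2 hm
  have := g.c_sqrt
  nlinarith [g.hc]

/-- **Water filling**: the closure property of the set of functionals. -/
lemma Fn.move (g : Fn 𝕜) {n p : ℕ} (hnp : n ≠ p) {γ : 𝕜} (hγ : ‖γ‖ = 1) :
    ∃ (g' : Fn 𝕜) (c' : ℝ), γ * g'.val p = (c' : 𝕜) ∧
      ∀ K : Finset ℕ, n ∉ K → p ∉ K →
        ‖g.val n‖ + ∑ i ∈ K, ‖g.val i - g'.val i‖ ≤ c' := by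
  classical
  have hγ0 : γ ≠ 0 := by
    intro h; rw [h, norm_zero] at hγ; exact zero_ne_one hγ
  have hγi : ‖γ⁻¹‖ = 1 := by rw [norm_inv, hγ, inv_one]
  by_cases hp : p ∈ g.M
  · -- only change the sign at `p`
    let g' : Fn 𝕜 :=
      { L := g.L, M := g.M, S := g.S, ε := Function.update g.ε p γ⁻¹, c := g.c,
        hε := by
          intro i
          by_cases hi : i = p
          · subst hi; simp [hγ]
          · simp [Function.update_of_ne hi, g.hε]
        hc := g.hc, hS := g.hS, hU := g.hU, hM := g.hM }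
    refine ⟨g', g.c, ?_, ?_⟩
    · have : g'.val p = (g.c : 𝕜) * γ⁻¹ := by
        simp [Fn.val, g', hp]
      rw [this, mul_comm (g.c : 𝕜), ← mul_assoc, mul_inv_cancel₀ hγ0, one_mul]
    · intro K hn hpK
      have : ∑ i ∈ K, ‖g.val i - g'.val i‖ = 0 := by
        apply Finset.sum_eq_zero
        intro i hi
        have hip : i ≠ p := fun h => hpK (h ▸ hi)
        have : g'.val i = g.val i := by
          simp [Fn.val, g', Function.update_of_ne hip, Fn.h]
        simp [this]
      rw [this, add_zero]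
      exact g.norm_val_le n
  by_cases hn : n ∈ g.M
  · -- move `n` to `p`
    let g' : Fn 𝕜 :=
      { L := g.L, M := insert p (g.M.erase n), S := g.S, ε := Function.update g.ε p γ⁻¹,
        c := g.c,
        hε := by
          intro i
          by_cases hi : i = p
          · subst hi; simp [hγ]
          · simp [Function.update_of_ne hi, g.hε]
        hc := g.hc
        hS := by
          rw [Finset.card_insert_of_notMem (by simp [hp]), Finset.card_erase_of_mem hn]
          have := g.hS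
          have := g.hM.card_pos
          omega
        hU := by
          have : (insert p (g.M.erase n)).card = g.M.card := by
            rw [Finset.card_insert_of_notMem (by simp [hp]), Finset.card_erase_of_mem hn]
            have := g.hM.card_pos
            omega
          rw [this]
          exact g.hU
        hM := Finset.insert_nonempty _ _ }
    refine ⟨g', g.c, ?_, ?_⟩
    · have : g'.val p = (g.c : 𝕜) * γ⁻¹ := by
        simp [Fn.val, g']
      rw [this, mul_comm (g.c : 𝕜), ← mul_assoc, mul_inv_cancel₀ hγ0, one_mul]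
    · intro K hnK hpK
      have : ∑ i ∈ K, ‖g.val i - g'.val i‖ = 0 := by
        apply Finset.sum_eq_zero
        intro i hi
        have hip : i ≠ p := fun h => hpK (h ▸ hi)
        have hin : i ≠ n := fun h => hnK (h ▸ hi)
        have : g'.val i = g.val i := by
          simp [Fn.val, g', Fn.h, hip, hin]
        simp [this]
      rw [this, add_zero]
      exact g.norm_val_le n
  · -- water filling
    set m : ℕ := g.M.card with hm
    set u : ℝ := ‖g.val n‖ with hu
    have hu0 : 0 ≤ u := norm_nonneg _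
    have huc : u ≤ g.c := g.norm_val_le n
    let E : Finset ℕ := (Finset.range g.L).filter
      (fun i => w i ≤ g.c ∧ i ∉ g.S ∧ i ∉ g.M ∧ i ≠ n ∧ i ≠ p)
    let av : Finset ℕ → ℝ := fun A => (g.c * m + u + ∑ i ∈ A, w i) / (m + 1 + A.card)
    obtain ⟨A, hA, hmax⟩ := Finset.exists_max_image E.powerset av ⟨∅, by simp⟩
    have hAE : A ⊆ E := Finset.mem_powerset.1 hA
    set c' : ℝ := av A with hc'
    have hden : (0 : ℝ) < m + 1 + A.card := by positivity
    have hc'eq : c' * (m + 1 + A.card) = g.c * m + u + ∑ i ∈ A, w i := by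
      rw [hc']; exact div_mul_cancel₀ _ hden.ne'
    have hAmem : ∀ i ∈ A, i < g.L ∧ w i ≤ g.c ∧ i ∉ g.S ∧ i ∉ g.M ∧ i ≠ n ∧ i ≠ p := by
      intro i hi
      have := hAE hi
      simpa [E] using this
    have hc'0 : 0 ≤ c' := by
      rw [hc']
      apply div_nonneg _ hden.le
      have h1 : 0 ≤ ∑ i ∈ A, w i := Finset.sum_nonneg fun i _ => (w_pos i).le
      have h2 : 0 ≤ g.c * m := mul_nonneg g.hc (Nat.cast_nonneg _)
      linarith
    have hc'c : c' ≤ g.c := by
      have h1 : ∑ i ∈ A, w i ≤ A.card * g.c := by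
        calc ∑ i ∈ A, w i ≤ ∑ i ∈ A, g.c := Finset.sum_le_sum fun i hi => (hAmem i hi).2.1
          _ = A.card * g.c := by rw [Finset.sum_const, nsmul_eq_mul]
      have h2 : c' * (m + 1 + A.card) ≤ g.c * (m + 1 + A.card) := by
        rw [hc'eq]; nlinarith
      exact le_of_mul_le_mul_right h2 hden
    -- elements of `A` are above the level
    have hAge : ∀ i ∈ A, c' ≤ w i := by
      intro i hi
      by_contra hlt
      push Not at hlt
      have hB : A.erase i ∈ E.powerset :=
        Finset.mem_powerset.2 ((Finset.erase_subset _ _).trans hAE)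
      have h1 := hmax _ hB
      have hcard : ((A.erase i).card : ℝ) = A.card - 1 := by
        rw [Finset.card_erase_of_mem hi]
        have : 1 ≤ A.card := Finset.card_pos.2 ⟨i, hi⟩
        push_cast [Nat.cast_sub this]
        ring
      have hcardpos : (1 : ℝ) ≤ A.card := by
        exact_mod_cast (Finset.card_pos.2 ⟨i, hi⟩ : 0 < A.card)
      have hsum : ∑ j ∈ A.erase i, w j = ∑ j ∈ A, w j - w i := by
        rw [← Finset.sum_erase_add _ _ hi]; ring
      have hden2 : (0 : ℝ) < m + 1 + (A.erase i).card := by positivity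
      have h2 : av (A.erase i) * (m + 1 + (A.erase i).card) =
          g.c * m + u + ∑ j ∈ A.erase i, w j := div_mul_cancel₀ _ hden2.ne'
      rw [hsum] at h2
      have h3 : av (A.erase i) * (m + 1 + (A.erase i).card) ≤
          c' * (m + 1 + (A.erase i).card) := mul_le_mul_of_nonneg_right h1 hden2.le
      rw [h2, hcard] at h3
      nlinarith
    have hAle : ∀ i ∈ E, i ∉ A → w i ≤ c' := by
      intro i hiE hiA
      by_contra hlt
      push Not at hlt
      have hB : insert i A ∈ E.powerset :=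
        Finset.mem_powerset.2 (Finset.insert_subset hiE hAE)
      have h1 := hmax _ hB
      have hcard : ((insert i A).card : ℝ) = A.card + 1 := by
        rw [Finset.card_insert_of_notMem hiA]; push_cast; ring
      have hsum : ∑ j ∈ insert i A, w j = w i + ∑ j ∈ A, w j := Finset.sum_insert hiA
      have hden2 : (0 : ℝ) < m + 1 + (insert i A).card := by positivity
      have h2 : av (insert i A) * (m + 1 + (insert i A).card) =
          g.c * m + u + ∑ j ∈ insert i A, w j := div_mul_cancel₀ _ hden2.ne'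
      rw [hsum] at h2
      have h3 : av (insert i A) * (m + 1 + (insert i A).card) ≤
          c' * (m + 1 + (insert i A).card) := mul_le_mul_of_nonneg_right h1 hden2.le
      rw [h2, hcard] at h3
      nlinarith
    -- the new sets
    have hdisjAM : Disjoint A g.M := by
      rw [Finset.disjoint_left]; intro i hi; exact (hAmem i hi).2.2.2.1
    have hdisjAS : Disjoint A g.S := by
      rw [Finset.disjoint_left]; intro i hi; exact (hAmem i hi).2.2.1
    have hpA : p ∉ A := fun h => (hAmem p h).2.2.2.2.2 rfl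
    have hnA : n ∉ A := fun h => (hAmem n h).2.2.2.2.1 rfl
    have hcardM' : (insert p (A ∪ g.M)).card = m + 1 + A.card := by
      rw [Finset.card_insert_of_notMem (by simp [hpA, hp]),
        Finset.card_union_of_disjoint hdisjAM]
      omega
    let ε' : ℕ → 𝕜 := fun i => if i = p then γ⁻¹ else if i ∈ A then 1 else g.ε i
    let g' : Fn 𝕜 :=
      { L := g.L, M := insert p (A ∪ g.M), S := insert n (A ∪ g.S), ε := ε', c := c',
        hε := by
          intro i
          simp only [ε']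
          split_ifs
          · exact hγi
          · simp
          · exact g.hε i
        hc := hc'0
        hS := by
          rw [hcardM']
          have h1 := Finset.card_insert_le n (A ∪ g.S)
          have h2 := Finset.card_union_le A g.S
          have h3 := g.hS
          omega
        hU := by
          rw [hcardM']
          push_cast
          rw [hc'eq]
          have h1 : √(g.M.card : ℝ) ≤ √((m : ℝ) + 1 + A.card) := by
            apply Real.sqrt_le_sqrt
            have : (0 : ℝ) ≤ A.card := Nat.cast_nonneg _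
            rw [← hm]; linarith
          have h2 : u + ∑ i ∈ A, w i + ∑ i ∈ g.S, w i ≤ ∑ i ∈ insert n (A ∪ g.S), w i := by
            by_cases hnS : n ∈ g.S
            · have hu' : u = 0 := by
                rw [hu]; simp [Fn.val, hn, hnS]
              rw [hu', Finset.insert_eq_of_mem (by simp [hnS]),
                Finset.sum_union hdisjAS]
              linarith
            · rw [Finset.sum_insert (by simp [hnS, hnA]), Finset.sum_union hdisjAS]
              have hu' : u ≤ w n := by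
                rw [hu]
                simp only [Fn.val, if_neg hn, if_neg hnS]
                rw [norm_ofReal', abs_of_nonneg (g.h_nonneg n)]
                exact g.h_le_w n
              linarith
          have h3 := g.hU
          rw [← hm] at h3 h1
          linarith
        hM := Finset.insert_nonempty _ _ }
    refine ⟨g', c', ?_, ?_⟩
    · have : g'.val p = (c' : 𝕜) * γ⁻¹ := by
        simp [Fn.val, g', ε']
      rw [this, mul_comm (c' : 𝕜), ← mul_assoc, mul_inv_cancel₀ hγ0, one_mul]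
    · intro K hnK hpK
      -- pointwise bound of the differences
      have hpt : ∀ i ∈ K, ‖g.val i - g'.val i‖ ≤
          (if i ∈ g.M then g.c - c' else 0) + (if i ∈ A then w i - c' else 0) := by
        intro i hi
        have hip : i ≠ p := fun h => hpK (h ▸ hi)
        have hin : i ≠ n := fun h => hnK (h ▸ hi)
        by_cases hiM : i ∈ g.M
        · have hiA : i ∉ A := fun h => (hAmem i h).2.2.2.1 hiM
          have h1 : g.val i = (g.c : 𝕜) * g.ε i := by simp [Fn.val, hiM]
          have h2 : g'.val i = (c' : 𝕜) * g.ε i := by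
            simp [Fn.val, g', ε', hiM, hip, hiA]
          rw [h1, h2, ← sub_mul, norm_mul, g.hε, mul_one, ← RCLike.ofReal_sub, norm_ofReal',
            abs_of_nonneg (by linarith)]
          simp [hiM, hiA]
        · by_cases hiA : i ∈ A
          · have hi' := hAmem i hiA
            have h1 : g.val i = (w i : 𝕜) := by
              simp [Fn.val, hiM, hi'.2.2.1, Fn.h, hi'.1, hi'.2.1]
            have h2 : g'.val i = (c' : 𝕜) := by
              simp [Fn.val, g', ε', hip, hiA]
            rw [h1, h2, ← RCLike.ofReal_sub, norm_ofReal',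
              abs_of_nonneg (by linarith [hAge i hiA])]
            simp [hiM, hiA]
          · have h3 : g.val i = g'.val i := by
              by_cases hiS : i ∈ g.S
              · simp [Fn.val, g', hiM, hiA, hiS, hip]
              · have hS' : i ∉ insert n (A ∪ g.S) := by simp [hin, hiA, hiS]
                have hM' : i ∉ insert p (A ∪ g.M) := by simp [hip, hiA, hiM]
                have e1 : g.val i = (g.h i : 𝕜) := by simp [Fn.val, hiM, hiS]
                have e2 : g'.val i = (g'.h i : 𝕜) := by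
                  simp only [Fn.val, g', if_neg hM', if_neg hS']
                rw [e1, e2]
                congr 1
                simp only [Fn.h, g']
                by_cases hL : i < g.L
                · by_cases hwc : w i ≤ g.c
                  · have hiE : i ∈ E := by simp [E, hL, hwc, hiS, hiM, hin, hip]
                    have := hAle i hiE hiA
                    simp [hL, hwc, this]
                  · have : ¬ w i ≤ c' := fun h => hwc (h.trans hc'c)
                    simp [hwc, this]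
                · simp [hL]
            rw [h3, sub_self, norm_zero]
            simp [hiM, hiA]
      have hsum1 : ∑ i ∈ K, (if i ∈ g.M then g.c - c' else 0) ≤ m * (g.c - c') := by
        rw [← Finset.sum_filter, Finset.sum_const, nsmul_eq_mul]
        apply mul_le_mul_of_nonneg_right _ (by linarith)
        have : (K.filter (fun i => i ∈ g.M)).card ≤ g.M.card :=
          Finset.card_le_card fun i hi => (Finset.mem_filter.1 hi).2
        exact_mod_cast this
      have hsum2 : ∑ i ∈ K, (if i ∈ A then w i - c' else 0) ≤ ∑ i ∈ A, (w i - c') := by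
        rw [← Finset.sum_filter]
        apply Finset.sum_le_sum_of_subset_of_nonneg
        · intro i hi; exact (Finset.mem_filter.1 hi).2
        · intro i hi _
          linarith [hAge i hi]
      have hsum3 : ∑ i ∈ A, (w i - c') = ∑ i ∈ A, w i - A.card * c' := by
        rw [Finset.sum_sub_distrib, Finset.sum_const, nsmul_eq_mul]
      have hsum : ∑ i ∈ K, ‖g.val i - g'.val i‖ ≤
          m * (g.c - c') + (∑ i ∈ A, w i - A.card * c') := by
        refine (Finset.sum_le_sum hpt).trans ?_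
        rw [Finset.sum_add_distrib]
        linarith
      calc u + ∑ i ∈ K, ‖g.val i - g'.val i‖
          ≤ u + (m * (g.c - c') + (∑ i ∈ A, w i - A.card * c')) := by linarith
        _ = c' := by nlinarith


/-! ### Abstract form of the space -/

/-- The index of the `n`-th coordinate functional. -/
noncomputable def co (𝕜 : Type) [RCLike 𝕜] (n : ℕ) : Fn 𝕜 :=
  { L := 0, M := {n}, S := ∅, ε := fun _ => 1, c := 1,
    hε := fun _ => by simp
    hc := zero_le_one
    hS := by simp
    hU := by simp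
    hM := by simp }

lemma co_val (n k : ℕ) : (co 𝕜 n).val k = if n = k then 1 else 0 := by
  by_cases h : n = k
  · subst h; simp [Fn.val, co]
  · have h' : k ≠ n := fun e => h e.symm
    simp [Fn.val, co, h, h', Fn.h]

/-- the support of a functional -/
lemma Fn.supp (g : Fn 𝕜) : ∀ i, g.val i ≠ 0 → i ∈ g.M ∪ Finset.range g.L := by
  intro i hi
  by_contra h
  simp only [Finset.mem_union, Finset.mem_range, not_or, not_lt] at h
  exact hi (g.val_of_not_mem h.1 h.2)

/-- A normed space with vectors `e n` and functionals `φ g`, the norm being the supremum of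
the moduli of the `φ g`. -/
structure Model (𝕜 : Type) [RCLike 𝕜] (X : Type) [NormedAddCommGroup X] [NormedSpace 𝕜 X] where
  e : ℕ → X
  φ : Fn 𝕜 → X →L[𝕜] 𝕜
  φ_e : ∀ g n, φ g (e n) = g.val n
  norm_φ_le : ∀ g x, ‖φ g x‖ ≤ ‖x‖
  norm_le : ∀ x C, 0 ≤ C → (∀ g, ‖φ g x‖ ≤ C) → ‖x‖ ≤ C
  φ_eq : ∀ (g : Fn 𝕜) (K : Finset ℕ), (∀ i, g.val i ≠ 0 → i ∈ K) → ∀ x,
    φ g x = ∑ i ∈ K, g.val i * φ (co 𝕜 i) x
  dense : Dense (Submodule.span 𝕜 (Set.range e) : Set X)

namespace Model

variable {X : Type} [NormedAddCommGroup X] [NormedSpace 𝕜 X] (Z : Model 𝕜 X)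

/-- The coordinate functionals. -/
noncomputable def f (n : ℕ) : X →L[𝕜] 𝕜 := Z.φ (co 𝕜 n)

lemma f_e (k n : ℕ) : Z.f k (Z.e n) = if k = n then 1 else 0 := by
  rw [f, Z.φ_e, co_val]

lemma norm_f_le (n : ℕ) (x : X) : ‖Z.f n x‖ ≤ ‖x‖ := Z.norm_φ_le _ _

lemma norm_e_le (n : ℕ) : ‖Z.e n‖ ≤ 6 :=
  Z.norm_le _ _ (by norm_num) fun g => by
    rw [Z.φ_e]; exact (g.norm_val_le n).trans g.c_le

lemma isBasis : IsBasis Z.e Z.f where
  biorthogonal := Z.f_e
  dense_span := Z.dense
  total := by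
    intro x hx
    have : ‖x‖ ≤ 0 := Z.norm_le _ _ le_rfl fun g => by
      rw [Z.φ_eq g _ g.supp]
      have : ∀ i, Z.φ (co 𝕜 i) x = 0 := hx
      simp [this]
    exact norm_le_zero_iff.1 this
  seminormalized := by
    refine ⟨6, fun n => ⟨Z.norm_e_le n, ?_⟩⟩
    refine ContinuousLinearMap.opNorm_le_bound _ (by norm_num) fun x => ?_
    have := Z.norm_f_le n x
    have := norm_nonneg x
    linarith

/-! ### Property (A) -/

lemma step (y : X) {n p : ℕ} (hnp : n ≠ p) (hy : ∀ i, ‖Z.f i y‖ ≤ 1) (hp : Z.f p y = 0)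
    {β : 𝕜} (hβ : ‖β‖ = 1) :
    ‖y‖ ≤ ‖y - Z.f n y • Z.e n + β • Z.e p‖ := by
  classical
  apply Z.norm_le _ _ (norm_nonneg _)
  intro g
  by_cases h0 : Z.φ g y = 0
  · rw [h0, norm_zero]; exact norm_nonneg _
  -- rotate
  obtain ⟨α, hα1, hαg⟩ : ∃ α : 𝕜, ‖α‖ = 1 ∧ α * Z.φ g y = (‖Z.φ g y‖ : 𝕜) := by
    refine ⟨(‖Z.φ g y‖ : 𝕜) * (Z.φ g y)⁻¹, ?_, ?_⟩
    · rw [norm_mul, norm_inv, RCLike.norm_ofReal, abs_norm,
        mul_inv_cancel₀ (norm_ne_zero_iff.2 h0)]
    · rw [mul_assoc, inv_mul_cancel₀ h0, mul_one]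
  obtain ⟨g', c', hc', hK⟩ := g.move hnp (γ := α * β) (by rw [norm_mul, hα1, hβ, mul_one])
  set y' : X := y - Z.f n y • Z.e n + β • Z.e p with hy'
  refine le_trans ?_ (Z.norm_φ_le g' y')
  set K : Finset ℕ := (g.M ∪ Finset.range g.L) ∪ (g'.M ∪ Finset.range g'.L) with hKdef
  set K' : Finset ℕ := (K.erase n).erase p with hK'
  have hfull : ∀ (h : Fn 𝕜), (∀ i, h.val i ≠ 0 → i ∈ K) → ∀ z : X,
      Z.φ h z = ∑ i ∈ K', h.val i * Z.f i z + h.val n * Z.f n z + h.val p * Z.f p z := by
    intro h hh z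
    rw [Z.φ_eq h (insert p (insert n K')) _ z]
    · rw [Finset.sum_insert (by simp [hK', hnp.symm]), Finset.sum_insert (by simp [hK'])]
      simp only [f]
      ring
    · intro i hi
      have := hh i hi
      by_cases h1 : i = p
      · simp [h1]
      · by_cases h2 : i = n
        · simp [h2]
        · simp [hK', h1, h2, this]
  have hg := hfull g (fun i hi => Finset.mem_union_left _ (g.supp i hi)) y
  have hg' := hfull g' (fun i hi => Finset.mem_union_right _ (g'.supp i hi)) y'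
  have hco : ∀ i, Z.f i y' = Z.f i y - Z.f n y * (if i = n then 1 else 0) +
      β * (if i = p then 1 else 0) := by
    intro i
    rw [hy', map_add, map_sub, map_smul, map_smul, Z.f_e, Z.f_e, smul_eq_mul, smul_eq_mul]
  have c1 : ∀ i ∈ K', Z.f i y' = Z.f i y := by
    intro i hi
    have h1 : i ≠ p := (Finset.mem_erase.1 hi).1
    have h2 : i ≠ n := (Finset.mem_erase.1 (Finset.mem_erase.1 hi).2).1
    rw [hco, if_neg h1, if_neg h2]; ring
  have c2 : Z.f n y' = 0 := by rw [hco, if_pos rfl, if_neg hnp]; ring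
  have c3 : Z.f p y' = β := by rw [hco, if_neg hnp.symm, if_pos rfl, hp]; ring
  rw [c2, c3, Finset.sum_congr rfl fun i hi => by rw [c1 i hi], mul_zero, add_zero] at hg'
  rw [hp, mul_zero, add_zero] at hg
  have hdiff : α * Z.φ g' y' = (‖Z.φ g y‖ : 𝕜) + (c' : 𝕜) - α * (g.val n * Z.f n y) -
      α * ∑ i ∈ K', (g.val i - g'.val i) * Z.f i y := by
    have : ∑ i ∈ K', (g.val i - g'.val i) * Z.f i y =
        ∑ i ∈ K', g.val i * Z.f i y - ∑ i ∈ K', g'.val i * Z.f i y := by
      rw [← Finset.sum_sub_distrib]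
      exact Finset.sum_congr rfl fun i _ => by ring
    rw [this, ← hαg, hg, hg', ← hc']
    ring
  have hb := hK K' (by simp [hK']) (by simp [hK'])
  have hnorm : ‖α * (g.val n * Z.f n y) +
      α * ∑ i ∈ K', (g.val i - g'.val i) * Z.f i y‖ ≤ c' := by
    calc _ ≤ ‖α * (g.val n * Z.f n y)‖ + ‖α * ∑ i ∈ K', (g.val i - g'.val i) * Z.f i y‖ :=
          norm_add_le _ _
      _ = ‖g.val n * Z.f n y‖ + ‖∑ i ∈ K', (g.val i - g'.val i) * Z.f i y‖ := by
          rw [norm_mul α, norm_mul α, hα1, one_mul, one_mul]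
      _ ≤ ‖g.val n‖ + ∑ i ∈ K', ‖g.val i - g'.val i‖ := by
          apply add_le_add
          · rw [norm_mul]
            exact mul_le_of_le_one_right (norm_nonneg _) (hy n)
          · refine (norm_sum_le _ _).trans (Finset.sum_le_sum fun i _ => ?_)
            rw [norm_mul]
            exact mul_le_of_le_one_right (norm_nonneg _) (hy i)
      _ ≤ c' := hb
  have hc'0 : 0 ≤ c' := (norm_nonneg _).trans hnorm
  calc ‖Z.φ g y‖ = ‖((‖Z.φ g y‖ + c' : ℝ) : 𝕜)‖ - c' := by
        rw [norm_ofReal', abs_of_nonneg (by positivity)]; ring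
    _ ≤ ‖((‖Z.φ g y‖ + c' : ℝ) : 𝕜)‖ -
        ‖α * (g.val n * Z.f n y) + α * ∑ i ∈ K', (g.val i - g'.val i) * Z.f i y‖ := by
        linarith
    _ ≤ ‖((‖Z.φ g y‖ + c' : ℝ) : 𝕜) -
        (α * (g.val n * Z.f n y) + α * ∑ i ∈ K', (g.val i - g'.val i) * Z.f i y)‖ :=
        norm_sub_norm_le _ _
    _ = ‖α * Z.φ g' y'‖ := by
        rw [hdiff]
        congr 1
        push_cast
        ring
    _ = ‖Z.φ g' y'‖ := by rw [norm_mul α, hα1, one_mul]

lemma f_sum (C : Finset ℕ) (θ : ℕ → 𝕜) (i : ℕ) :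
    Z.f i (∑ n ∈ C, θ n • Z.e n) = if i ∈ C then θ i else 0 := by
  rw [map_sum]
  simp only [map_smul, Z.f_e, smul_eq_mul, mul_ite, mul_one, mul_zero]
  rw [Finset.sum_ite_eq]

lemma propA_le : ∀ (k : ℕ) (x : X) (A B : Finset ℕ) (ε η : ℕ → 𝕜), A.card = k →
    (∀ n, ‖Z.f n x‖ ≤ 1) → A.card = B.card →
    Disjoint A B → (∀ n ∈ A ∪ B, Z.f n x = 0) → (∀ n ∈ A, ‖ε n‖ = 1) →
    (∀ n ∈ B, ‖η n‖ = 1) →
    ‖x + ∑ n ∈ A, ε n • Z.e n‖ ≤ ‖x + ∑ n ∈ B, η n • Z.e n‖ := by
  classical
  intro k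
  induction k with
  | zero =>
    intro x A B ε η hA _ hAB _ _ _ _
    have hA' : A = ∅ := Finset.card_eq_zero.1 hA
    have hB' : B = ∅ := Finset.card_eq_zero.1 (by omega)
    simp [hA', hB']
  | succ k ih =>
    intro x A B ε η hA hx hAB hdisj h0 hε hη
    obtain ⟨a, A', haA', rfl, hA'⟩ := Finset.card_eq_succ.1 hA
    obtain ⟨c, B', hcB', rfl, hB'⟩ := Finset.card_eq_succ.1 (hAB ▸ hA)
    have hac : a ≠ c := by
      intro h
      rw [Finset.disjoint_left] at hdisj
      exact hdisj (Finset.mem_insert_self a A') (h ▸ Finset.mem_insert_self c B')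
    have hcA' : c ∉ A' := by
      intro h
      rw [Finset.disjoint_left] at hdisj
      exact hdisj (Finset.mem_insert_of_mem h) (Finset.mem_insert_self c B')
    have hfa : Z.f a x = 0 := h0 a (by simp)
    have hfc : Z.f c x = 0 := h0 c (by simp)
    have hεa : ‖ε a‖ = 1 := hε a (Finset.mem_insert_self _ _)
    have hηc : ‖η c‖ = 1 := hη c (Finset.mem_insert_self _ _)
    -- first move
    set y : X := x + ∑ n ∈ insert a A', ε n • Z.e n with hy
    have hyco : ∀ i, ‖Z.f i y‖ ≤ 1 := by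
      intro i
      rw [hy, map_add, Z.f_sum]
      by_cases hi : i ∈ insert a A'
      · rw [if_pos hi, h0 i (Finset.mem_union_left _ hi), zero_add, hε i hi]
      · rw [if_neg hi, add_zero]; exact hx i
    have hyc : Z.f c y = 0 := by
      rw [hy, map_add, Z.f_sum, if_neg (by simp [hac.symm, hcA']), hfc, add_zero]
    have hya : Z.f a y = ε a := by
      rw [hy, map_add, Z.f_sum, if_pos (by simp), hfa, zero_add]
    have h1 := Z.step y hac hyco hyc hηc
    have h2 : y - Z.f a y • Z.e a + η c • Z.e c =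
        (x + η c • Z.e c) + ∑ n ∈ A', ε n • Z.e n := by
      rw [hya, hy, Finset.sum_insert haA']
      abel
    rw [h2] at h1
    refine h1.trans ?_
    have hco : ∀ n, n ≠ c → Z.f n (x + η c • Z.e c) = Z.f n x := by
      intro n hn
      rw [map_add, map_smul, Z.f_e, if_neg hn, smul_zero, add_zero]
    have h3 := ih (x + η c • Z.e c) A' B' ε η hA' ?_ (by omega) ?_ ?_ ?_ ?_
    · refine h3.trans (le_of_eq ?_)
      rw [Finset.sum_insert hcB']
      congr 1
      abel
    · intro n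
      by_cases hn : n = c
      · subst hn
        rw [map_add, map_smul, Z.f_e, if_pos rfl, hfc, zero_add, smul_eq_mul, mul_one, hηc]
      · rw [hco n hn]; exact hx n
    · exact (Finset.disjoint_insert_left.1 (Finset.disjoint_insert_right.1 hdisj).2).2
    · intro n hn
      have hnc : n ≠ c := by
        rintro rfl
        rcases Finset.mem_union.1 hn with h | h
        · exact hcA' h
        · exact hcB' h
      rw [hco n hnc]
      apply h0
      rcases Finset.mem_union.1 hn with h | h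
      · exact Finset.mem_union_left _ (Finset.mem_insert_of_mem h)
      · exact Finset.mem_union_right _ (Finset.mem_insert_of_mem h)
    · intro n hn; exact hε n (Finset.mem_insert_of_mem hn)
    · intro n hn; exact hη n (Finset.mem_insert_of_mem hn)

lemma propertyA : PropertyA Z.e Z.f := by
  intro x A B ε η hx hAB hdisj h0 hε hη
  apply le_antisymm
  · exact Z.propA_le _ x A B ε η rfl hx hAB hdisj h0 hε hη
  · exact Z.propA_le _ x B A η ε rfl hx hAB.symm hdisj.symm
      (fun n hn => h0 n (by rwa [Finset.union_comm] at hn)) hη hε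

/-! ### The basis is conditional -/

/-- The alternating vector `∑_{i < 2N} (-1)^i w_i e_i`. -/
noncomputable def alt (N : ℕ) : X :=
  ∑ i ∈ Finset.range (2 * N), (((-1 : ℝ) ^ i * w i : ℝ) : 𝕜) • Z.e i

end Model

/-- alternating sums of a function that is constant on pairs -/
lemma pair_sum (H : ℕ → ℝ) (K : ℕ) :
    ∑ i ∈ Finset.range (2 * K), (-1 : ℝ) ^ i * H (i / 2) = 0 := by
  induction K with
  | zero => simp
  | succ K ih =>
    rw [show 2 * (K + 1) = 2 * K + 1 + 1 by ring, Finset.sum_range_succ, Finset.sum_range_succ,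
      ih]
    have h1 : 2 * K / 2 = K := by omega
    have h2 : (2 * K + 1) / 2 = K := by omega
    rw [h1, h2, pow_succ, pow_mul]
    norm_num

lemma pair_sum' (H : ℕ → ℝ) (hH : ∀ j, |H j| ≤ 1) (K : ℕ) :
    |∑ i ∈ Finset.range K, (-1 : ℝ) ^ i * H (i / 2)| ≤ 1 := by
  rcases Nat.even_or_odd' K with ⟨K', rfl | rfl⟩
  · rw [pair_sum, abs_zero]; exact zero_le_one
  · rw [Finset.sum_range_succ, pair_sum, zero_add, abs_mul, abs_pow, abs_neg, abs_one,
      one_pow, one_mul]
    exact hH _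

lemma w_half {i j : ℕ} (h : i / 2 = j / 2) : w i = w j := by
  unfold w; rw [h]

lemma w_two_mul (j : ℕ) : w (2 * j) * w (2 * j) = 1 / ((j : ℝ) + 1) := by
  rw [w_sq]
  have : 2 * j / 2 = j := by omega
  rw [this]

lemma alt_main (g : Fn 𝕜) (N : ℕ) :
    |∑ i ∈ Finset.range (2 * N), (-1 : ℝ) ^ i * (w i * g.h i)| ≤ 1 := by
  -- the summand is constant on pairs, cut at `g.L`
  let H : ℕ → ℝ := fun j => if w (2 * j) ≤ g.c then w (2 * j) * w (2 * j) else 0
  have hH : ∀ j, |H j| ≤ 1 := by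
    intro j
    simp only [H]
    split_ifs
    · rw [abs_of_nonneg (mul_self_nonneg _)]
      have h1 := w_le_one (2 * j)
      have h2 := w_pos (2 * j)
      nlinarith
    · simp
  have h1 : ∑ i ∈ Finset.range (2 * N), (-1 : ℝ) ^ i * (w i * g.h i) =
      ∑ i ∈ Finset.range (min (2 * N) g.L), (-1 : ℝ) ^ i * H (i / 2) := by
    have : Finset.range (min (2 * N) g.L) =
        (Finset.range (2 * N)).filter (fun i => i < g.L) := by
      ext i; simp
    rw [this, Finset.sum_filter]
    apply Finset.sum_congr rfl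
    intro i _
    have hw : w (2 * (i / 2)) = w i := w_half (by omega)
    simp only [H, hw, Fn.h]
    by_cases hi : i < g.L
    · by_cases hc : w i ≤ g.c
      · simp [hi, hc]
      · simp [hc]
    · simp [hi]
  rw [h1]
  exact pair_sum' H hH _

lemma Fn.val_sub_h (g : Fn 𝕜) (i : ℕ) :
    ‖g.val i - (g.h i : 𝕜)‖ ≤ if i ∈ g.M ∪ g.S then 2 * g.c else 0 := by
  classical
  by_cases hM : i ∈ g.M
  · rw [if_pos (Finset.mem_union_left _ hM)]
    have h1 := g.norm_val_le i
    have h2 : ‖(g.h i : 𝕜)‖ ≤ g.c := by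
      rw [norm_ofReal', abs_of_nonneg (g.h_nonneg i)]; exact g.h_le_c i
    exact (norm_sub_le _ _).trans (by linarith)
  · by_cases hS : i ∈ g.S
    · rw [if_pos (Finset.mem_union_right _ hS)]
      have h1 := g.norm_val_le i
      have h2 : ‖(g.h i : 𝕜)‖ ≤ g.c := by
        rw [norm_ofReal', abs_of_nonneg (g.h_nonneg i)]; exact g.h_le_c i
      exact (norm_sub_le _ _).trans (by linarith)
    · rw [if_neg (by simp [hM, hS])]
      simp [Fn.val, hM, hS]

namespace Model

variable {X : Type} [NormedAddCommGroup X] [NormedSpace 𝕜 X] (Z : Model 𝕜 X)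

lemma φ_alt (g : Fn 𝕜) (N : ℕ) : Z.φ g (Z.alt N) =
    ∑ i ∈ Finset.range (2 * N), (((-1 : ℝ) ^ i * w i : ℝ) : 𝕜) * g.val i := by
  rw [alt, map_sum]
  apply Finset.sum_congr rfl
  intro i _
  rw [map_smul, Z.φ_e, smul_eq_mul]

lemma norm_alt_le (N : ℕ) : ‖Z.alt N‖ ≤ 121 := by
  classical
  apply Z.norm_le _ _ (by norm_num)
  intro g
  rw [φ_alt]
  have hsplit : ∑ i ∈ Finset.range (2 * N), (((-1 : ℝ) ^ i * w i : ℝ) : 𝕜) * g.val i =
      ((∑ i ∈ Finset.range (2 * N), (-1 : ℝ) ^ i * (w i * g.h i) : ℝ) : 𝕜) +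
      ∑ i ∈ Finset.range (2 * N), (((-1 : ℝ) ^ i * w i : ℝ) : 𝕜) *
        (g.val i - (g.h i : 𝕜)) := by
    rw [RCLike.ofReal_sum, ← Finset.sum_add_distrib]
    apply Finset.sum_congr rfl
    intro i _
    push_cast
    ring
  have h1 : ‖((∑ i ∈ Finset.range (2 * N), (-1 : ℝ) ^ i * (w i * g.h i) : ℝ) : 𝕜)‖ ≤ 1 := by
    rw [norm_ofReal']; exact alt_main g N
  have hc := g.hc
  have h2 : ‖∑ i ∈ Finset.range (2 * N), (((-1 : ℝ) ^ i * w i : ℝ) : 𝕜) *
        (g.val i - (g.h i : 𝕜))‖ ≤ 2 * g.c * ∑ i ∈ g.M ∪ g.S, w i := by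
    refine (norm_sum_le _ _).trans ?_
    calc ∑ i ∈ Finset.range (2 * N), ‖(((-1 : ℝ) ^ i * w i : ℝ) : 𝕜) *
          (g.val i - (g.h i : 𝕜))‖
        ≤ ∑ i ∈ Finset.range (2 * N), (if i ∈ g.M ∪ g.S then 2 * g.c * w i else 0) := by
          apply Finset.sum_le_sum
          intro i _
          rw [norm_mul, norm_ofReal', abs_mul, abs_pow, abs_neg, abs_one, one_pow, one_mul,
            abs_of_pos (w_pos i)]
          have h3 := g.val_sub_h i
          split_ifs at h3 ⊢ with h4
          · nlinarith [w_pos i]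
          · nlinarith [w_pos i]
      _ ≤ ∑ i ∈ g.M ∪ g.S, 2 * g.c * w i := by
          rw [← Finset.sum_filter]
          apply Finset.sum_le_sum_of_subset_of_nonneg
          · intro i hi; exact (Finset.mem_filter.1 hi).2
          · intro i _ _
            have := w_pos i
            positivity
      _ = 2 * g.c * ∑ i ∈ g.M ∪ g.S, w i := by rw [Finset.mul_sum]
  have h3 : ∑ i ∈ g.M ∪ g.S, w i ≤ 10 * √(g.M.card : ℝ) := by
    have h4 : ∑ i ∈ g.M ∪ g.S, w i ≤ ∑ i ∈ g.M, w i + ∑ i ∈ g.S, w i := by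
      rw [← Finset.sum_union_inter]
      have : 0 ≤ ∑ i ∈ g.M ∩ g.S, w i := Finset.sum_nonneg fun i _ => (w_pos i).le
      linarith
    have h5 := sum_w g.M
    have h6 := sum_w g.S
    have h7 : √(g.S.card : ℝ) ≤ √(g.M.card : ℝ) :=
      Real.sqrt_le_sqrt (by exact_mod_cast g.hS)
    linarith
  have h8 := g.c_sqrt
  rw [hsplit]
  refine (norm_add_le _ _).trans ?_
  have h9 : 2 * g.c * ∑ i ∈ g.M ∪ g.S, w i ≤ 120 := by
    calc 2 * g.c * ∑ i ∈ g.M ∪ g.S, w i ≤ 2 * g.c * (10 * √(g.M.card : ℝ)) :=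
          mul_le_mul_of_nonneg_left h3 (by positivity)
      _ = 20 * (g.c * √(g.M.card : ℝ)) := by ring
      _ ≤ 120 := by linarith
  linarith

end Model

/-- The seed functional truncated at `2 N`. -/
noncomputable def seed (𝕜 : Type) [RCLike 𝕜] (N : ℕ) : Fn 𝕜 :=
  { L := 2 * N, M := {0}, S := ∅, ε := fun _ => 1, c := 1,
    hε := fun _ => by simp
    hc := zero_le_one
    hS := by simp
    hU := by simp
    hM := by simp }

lemma w_zero : w 0 = 1 := by simp [w]

lemma seed_val {N i : ℕ} (hi : i < 2 * N) : (seed 𝕜 N).val i = (w i : 𝕜) := by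
  by_cases h : i = 0
  · subst h; simp [Fn.val, seed, w_zero]
  · simp [Fn.val, seed, h, Fn.h, hi, w_le_one]

namespace Model

variable {X : Type} [NormedAddCommGroup X] [NormedSpace 𝕜 X] (Z : Model 𝕜 X)

/-- The even part of `alt N`. -/
noncomputable def evens (N : ℕ) : Finset ℕ := (Finset.range N).image (fun j => 2 * j)

lemma proj_alt (N : ℕ) : ∑ n ∈ evens N, Z.f n (Z.alt N) • Z.e n =
    ∑ j ∈ Finset.range N, (w (2 * j) : 𝕜) • Z.e (2 * j) := by
  rw [evens, Finset.sum_image (by intro a _ b _ h; simpa using h)]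
  apply Finset.sum_congr rfl
  intro j hj
  have hj' : 2 * j ∈ Finset.range (2 * N) := by
    have := Finset.mem_range.1 hj
    exact Finset.mem_range.2 (by omega)
  rw [alt, Z.f_sum, if_pos hj']
  simp [pow_mul]

lemma norm_proj_alt (N : ℕ) : ∑ j ∈ Finset.range N, (1 : ℝ) / ((j : ℝ) + 1) ≤
    ‖∑ n ∈ evens N, Z.f n (Z.alt N) • Z.e n‖ := by
  rw [proj_alt]
  refine le_trans ?_ (Z.norm_φ_le (seed 𝕜 N) _)
  rw [map_sum]
  have : ∑ j ∈ Finset.range N, Z.φ (seed 𝕜 N) ((w (2 * j) : 𝕜) • Z.e (2 * j)) =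
      ((∑ j ∈ Finset.range N, (1 : ℝ) / ((j : ℝ) + 1) : ℝ) : 𝕜) := by
    rw [RCLike.ofReal_sum]
    apply Finset.sum_congr rfl
    intro j hj
    have hj' : 2 * j < 2 * N := by
      have := Finset.mem_range.1 hj
      omega
    rw [map_smul, Z.φ_e, seed_val hj', smul_eq_mul, ← w_two_mul]
    push_cast
    ring
  rw [this, norm_ofReal']
  exact le_abs_self _

lemma not_unconditional [CompleteSpace X] : ¬ Unconditional Z.e Z.f := by
  classical
  intro hU
  -- the coordinate projections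
  let P : Finset ℕ → X →L[𝕜] X := fun A => ∑ n ∈ A, (Z.f n).smulRight (Z.e n)
  have hP : ∀ A x, P A x = ∑ n ∈ A, Z.f n x • Z.e n := by
    intro A x
    simp [P]
  have hbdd : ∀ x, ∃ C, ∀ A, ‖P A x‖ ≤ C := by
    intro x
    have hs : Summable (fun n => Z.f n x • Z.e n) := (hU x).summable
    obtain ⟨s, hs'⟩ := summable_iff_vanishing_norm.1 hs 1 one_pos
    refine ⟨∑ n ∈ s, ‖Z.f n x • Z.e n‖ + 1, ?_⟩
    intro A
    rw [hP]
    have h1 : ∑ n ∈ A, Z.f n x • Z.e n =
        ∑ n ∈ A ∩ s, Z.f n x • Z.e n + ∑ n ∈ A \ s, Z.f n x • Z.e n :=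
      (Finset.sum_inter_add_sum_sdiff A s _).symm
    rw [h1]
    refine (norm_add_le _ _).trans (add_le_add ?_ ?_)
    · refine (norm_sum_le _ _).trans ?_
      exact Finset.sum_le_sum_of_subset_of_nonneg Finset.inter_subset_right
        fun _ _ _ => norm_nonneg _
    · exact (hs' _ Finset.sdiff_disjoint).le
  obtain ⟨C, hC⟩ := banach_steinhaus hbdd
  -- the projections of `alt N` are unbounded
  have hle : ∀ N : ℕ, ∑ j ∈ Finset.range N, (1 : ℝ) / ((j : ℝ) + 1) ≤ C * 121 := by
    intro N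
    refine (Z.norm_proj_alt N).trans ?_
    rw [← hP]
    have hC0 : 0 ≤ C := (norm_nonneg _).trans (hC ∅)
    calc ‖P (evens N) (Z.alt N)‖ ≤ ‖P (evens N)‖ * ‖Z.alt N‖ :=
          ContinuousLinearMap.le_opNorm _ _
      _ ≤ C * 121 := mul_le_mul (hC _) (Z.norm_alt_le N) (norm_nonneg _) hC0
  have htend := Real.tendsto_sum_range_one_div_nat_succ_atTop
  obtain ⟨N, hN⟩ := (htend.eventually_gt_atTop (C * 121)).exists
  exact absurd (hle N) (not_le.2 hN)

/-! ### The basis is a Schauder basis -/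

/-- The partial sum operators. -/
noncomputable def S (N : ℕ) (x : X) : X := ∑ n ∈ Finset.range N, Z.f n x • Z.e n

lemma S_sub (N : ℕ) (x y : X) : Z.S N (x - y) = Z.S N x - Z.S N y := by
  simp only [S, map_sub, sub_smul, Finset.sum_sub_distrib]

end Model

/-- the functional `g` with its tail cut at `N` -/
def Fn.cut (g : Fn 𝕜) (N : ℕ) : Fn 𝕜 := { g with L := min g.L N }

lemma Fn.cut_val_lt (g : Fn 𝕜) {N i : ℕ} (hi : i < N) : (g.cut N).val i = g.val i := by
  simp [Fn.val, Fn.cut, Fn.h, hi]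

lemma Fn.cut_val_ge (g : Fn 𝕜) {N i : ℕ} (hi : N ≤ i) :
    (g.cut N).val i = if i ∈ g.M then (g.c : 𝕜) * g.ε i else 0 := by
  have : ¬ i < N := not_lt.2 hi
  simp [Fn.val, Fn.cut, Fn.h, this]

/-- the flat functional on a nonempty set `A` -/
noncomputable def flat (A : Finset ℕ) (hA : A.Nonempty) (ε : ℕ → 𝕜) (hε : ∀ i, ‖ε i‖ = 1) :
    Fn 𝕜 :=
  { L := 0, M := A, S := ∅, ε := ε, c := 1 / √(A.card : ℝ),
    hε := hε
    hc := by positivity
    hS := by simp
    hU := by
      have h1 : (0 : ℝ) < A.card := by exact_mod_cast hA.card_pos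
      have h2 : 0 < √(A.card : ℝ) := Real.sqrt_pos.2 h1
      have h3 : √(A.card : ℝ) * √(A.card : ℝ) = A.card := Real.mul_self_sqrt h1.le
      rw [Finset.sum_empty, add_zero, one_div, inv_mul_le_iff₀ h2, h3]
    hM := hA }

lemma flat_val (A : Finset ℕ) (hA : A.Nonempty) (ε : ℕ → 𝕜) (hε : ∀ i, ‖ε i‖ = 1) (i : ℕ) :
    (flat A hA ε hε).val i = if i ∈ A then ((1 / √(A.card : ℝ) : ℝ) : 𝕜) * ε i else 0 := by
  by_cases h : i ∈ A
  · simp [Fn.val, flat, h]
  · simp [Fn.val, flat, h, Fn.h]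

namespace Model

variable {X : Type} [NormedAddCommGroup X] [NormedSpace 𝕜 X] (Z : Model 𝕜 X)

lemma flat_bound (A : Finset ℕ) (hA : A.Nonempty) (ε : ℕ → 𝕜) (hε : ∀ i, ‖ε i‖ = 1) (x : X) :
    ‖∑ i ∈ A, ε i * Z.f i x‖ ≤ √(A.card : ℝ) * ‖x‖ := by
  have h1 : (0 : ℝ) < A.card := by exact_mod_cast hA.card_pos
  have h2 : 0 < √(A.card : ℝ) := Real.sqrt_pos.2 h1
  have h3 := Z.norm_φ_le (flat A hA ε hε) x
  rw [Z.φ_eq (flat A hA ε hε) A (by
    intro i hi
    by_contra h
    rw [flat_val, if_neg h] at hi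
    exact hi rfl)] at h3
  have h4 : ∑ i ∈ A, (flat A hA ε hε).val i * Z.φ (co 𝕜 i) x =
      ((1 / √(A.card : ℝ) : ℝ) : 𝕜) * ∑ i ∈ A, ε i * Z.f i x := by
    rw [Finset.mul_sum]
    apply Finset.sum_congr rfl
    intro i hi
    rw [flat_val, if_pos hi, mul_assoc]
    rfl
  rw [h4, norm_mul, norm_ofReal', abs_of_pos (by positivity), one_div,
    inv_mul_le_iff₀ h2] at h3
  exact h3

lemma norm_S_le (N : ℕ) (x : X) : ‖Z.S N x‖ ≤ 7 * ‖x‖ := by
  classical
  apply Z.norm_le _ _ (by positivity)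
  intro g
  have h1 : Z.φ g (Z.S N x) = ∑ n ∈ Finset.range N, g.val n * Z.f n x := by
    rw [S, map_sum]
    apply Finset.sum_congr rfl
    intro n _
    rw [map_smul, Z.φ_e, smul_eq_mul, mul_comm]
  set T : Finset ℕ := g.M.filter (fun i => ¬ i < N) with hT
  have h2 : Z.φ (g.cut N) x = ∑ n ∈ Finset.range N, g.val n * Z.f n x +
      (g.c : 𝕜) * ∑ n ∈ T, g.ε n * Z.f n x := by
    rw [Z.φ_eq (g.cut N) (Finset.range N ∪ T)]
    · rw [Finset.sum_union]
      · congr 1
        · apply Finset.sum_congr rfl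
          intro i hi
          rw [g.cut_val_lt (Finset.mem_range.1 hi)]
          rfl
        · rw [Finset.mul_sum]
          apply Finset.sum_congr rfl
          intro i hi
          have hi' := Finset.mem_filter.1 hi
          rw [g.cut_val_ge (not_lt.1 hi'.2), if_pos hi'.1, mul_assoc]
          rfl
      · rw [Finset.disjoint_left]
        intro i hi hi'
        exact (Finset.mem_filter.1 hi').2 (Finset.mem_range.1 hi)
    · intro i hi
      by_cases hN : i < N
      · exact Finset.mem_union_left _ (Finset.mem_range.2 hN)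
      · apply Finset.mem_union_right
        rw [g.cut_val_ge (not_lt.1 hN)] at hi
        have : i ∈ g.M := by
          by_contra h
          rw [if_neg h] at hi
          exact hi rfl
        exact Finset.mem_filter.2 ⟨this, hN⟩
  have h3 : Z.φ g (Z.S N x) = Z.φ (g.cut N) x - (g.c : 𝕜) * ∑ n ∈ T, g.ε n * Z.f n x := by
    rw [h1, h2]; ring
  have h4 : ‖(g.c : 𝕜) * ∑ n ∈ T, g.ε n * Z.f n x‖ ≤ 6 * ‖x‖ := by
    rcases T.eq_empty_or_nonempty with h0 | h0
    · rw [h0]; simp
    · have h5 := Z.flat_bound T h0 g.ε g.hε x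
      rw [norm_mul, norm_ofReal', abs_of_nonneg g.hc]
      have h6 : √(T.card : ℝ) ≤ √(g.M.card : ℝ) :=
        Real.sqrt_le_sqrt (by exact_mod_cast Finset.card_filter_le _ _)
      calc g.c * ‖∑ n ∈ T, g.ε n * Z.f n x‖ ≤ g.c * (√(T.card : ℝ) * ‖x‖) :=
            mul_le_mul_of_nonneg_left h5 g.hc
        _ ≤ g.c * (√(g.M.card : ℝ) * ‖x‖) := by
            apply mul_le_mul_of_nonneg_left _ g.hc
            exact mul_le_mul_of_nonneg_right h6 (norm_nonneg _)
        _ = (g.c * √(g.M.card : ℝ)) * ‖x‖ := by ring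
        _ ≤ 6 * ‖x‖ := mul_le_mul_of_nonneg_right g.c_sqrt (norm_nonneg _)
  rw [h3]
  refine (norm_sub_le _ _).trans ?_
  have := Z.norm_φ_le (g.cut N) x
  linarith

lemma S_e (k N : ℕ) (h : k < N) : Z.S N (Z.e k) = Z.e k := by
  rw [S]
  rw [Finset.sum_eq_single k]
  · rw [Z.f_e, if_pos rfl, one_smul]
  · intro i _ hik
    rw [Z.f_e, if_neg hik, zero_smul]
  · intro h'; exact absurd (Finset.mem_range.2 h) h'

lemma schauder : Schauder Z.e Z.f := by
  intro x
  change Tendsto (fun N => Z.S N x) atTop (𝓝 x)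
  -- on the span the partial sums are eventually equal to the vector
  have hspan : ∀ y ∈ Submodule.span 𝕜 (Set.range Z.e), ∃ N₀, ∀ N ≥ N₀, Z.S N y = y := by
    intro y hy
    induction hy using Submodule.span_induction with
    | mem y hy =>
      obtain ⟨k, rfl⟩ := hy
      exact ⟨k + 1, fun N hN => Z.S_e k N (by omega)⟩
    | zero => exact ⟨0, fun N _ => by simp [S]⟩
    | add y z _ _ hy hz =>
      obtain ⟨N₁, h₁⟩ := hy
      obtain ⟨N₂, h₂⟩ := hz
      refine ⟨max N₁ N₂, fun N hN => ?_⟩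
      have e1 := h₁ N (le_trans (le_max_left _ _) hN)
      have e2 := h₂ N (le_trans (le_max_right _ _) hN)
      have : Z.S N (y + z) = Z.S N y + Z.S N z := by
        simp only [S, map_add, add_smul, Finset.sum_add_distrib]
      rw [this, e1, e2]
    | smul a y _ hy =>
      obtain ⟨N₁, h₁⟩ := hy
      refine ⟨N₁, fun N hN => ?_⟩
      have : Z.S N (a • y) = a • Z.S N y := by
        simp only [S, map_smul, smul_assoc, Finset.smul_sum]
      rw [this, h₁ N hN]
  rw [Metric.tendsto_atTop]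
  intro δ hδ
  obtain ⟨y, hy, hxy⟩ := Metric.mem_closure_iff.1 (Z.dense x) (δ / 9) (by positivity)
  obtain ⟨N₀, hN₀⟩ := hspan y hy
  refine ⟨N₀, fun N hN => ?_⟩
  rw [dist_eq_norm] at hxy ⊢
  have h1 : Z.S N x - x = Z.S N (x - y) - (x - y) := by
    rw [S_sub, hN₀ N hN]; abel
  rw [h1]
  have h2 := Z.norm_S_le N (x - y)
  have h3 := norm_sub_le (Z.S N (x - y)) (x - y)
  linarith

end Model

/-! ### The space -/

variable (𝕜)

/-- The ambient space of bounded functions on the index set. -/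
abbrev Amb : Type := lp (fun _ : Fn 𝕜 => 𝕜) ∞

/-- The basis vectors: `b n` is the function `g ↦ g n`. -/
noncomputable def b (n : ℕ) : Amb 𝕜 :=
  ⟨fun g => g.val n, by
    apply memℓp_infty
    refine ⟨6, ?_⟩
    rintro _ ⟨g, rfl⟩
    exact (g.norm_val_le n).trans g.c_le⟩

variable {𝕜}

@[simp] lemma b_apply (n : ℕ) (g : Fn 𝕜) : (b 𝕜 n) g = g.val n := rfl

/-- Evaluation at a functional. -/
noncomputable def ev (g : Fn 𝕜) : Amb 𝕜 →L[𝕜] 𝕜 :=
  LinearMap.mkContinuous
    { toFun := fun x => x g, map_add' := fun _ _ => rfl, map_smul' := fun _ _ => rfl } 1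
    (fun x => by
      rw [one_mul]
      exact lp.norm_apply_le_norm (by simp) x g)

@[simp] lemma ev_apply (g : Fn 𝕜) (x : Amb 𝕜) : ev g x = x g := rfl

variable (𝕜)

/-- The Banach space. -/
abbrev XX : Type := ↥(Submodule.span 𝕜 (Set.range (b 𝕜))).topologicalClosure

variable {𝕜}

instance : CompleteSpace (XX 𝕜) :=
  (Submodule.isClosed_topologicalClosure _).completeSpace_coe

lemma amb_eq (g : Fn 𝕜) (K : Finset ℕ) (hK : ∀ i, g.val i ≠ 0 → i ∈ K) (x : XX 𝕜) :
    (x : Amb 𝕜) g = ∑ i ∈ K, g.val i * (x : Amb 𝕜) (co 𝕜 i) := by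
  let T : Amb 𝕜 →L[𝕜] 𝕜 := ev g - ∑ i ∈ K, g.val i • ev (co 𝕜 i)
  have hT : ∀ y : Amb 𝕜, T y = y g - ∑ i ∈ K, g.val i * y (co 𝕜 i) := by
    intro y
    simp [T]
  have hsub : (Submodule.span 𝕜 (Set.range (b 𝕜))).topologicalClosure ≤
      LinearMap.ker (T : Amb 𝕜 →ₗ[𝕜] 𝕜) := by
    apply Submodule.topologicalClosure_minimal
    · rw [Submodule.span_le]
      rintro _ ⟨k, rfl⟩
      change T (b 𝕜 k) = 0
      rw [hT]
      simp only [b_apply, co_val]
      by_cases hk : k ∈ K
      · rw [Finset.sum_eq_single k]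
        · simp
        · intro i _ hik
          simp [hik]
        · intro h; exact absurd hk h
      · have h0 : g.val k = 0 := by
          by_contra h; exact hk (hK k h)
        rw [h0, zero_sub, neg_eq_zero]
        apply Finset.sum_eq_zero
        intro i hi
        have : i ≠ k := fun h => hk (h ▸ hi)
        simp [this]
    · exact ContinuousLinearMap.isClosed_ker T
  have h := hsub x.2
  have h' : T (x : Amb 𝕜) = 0 := h
  rw [hT, sub_eq_zero] at h'
  exact h'

/-- The basis. -/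
noncomputable def eX (n : ℕ) : XX 𝕜 :=
  ⟨b 𝕜 n, Submodule.le_topologicalClosure _ (Submodule.subset_span ⟨n, rfl⟩)⟩

lemma dense_span' : Dense (Submodule.span 𝕜 (Set.range (eX : ℕ → XX 𝕜)) : Set (XX 𝕜)) := by
  have hmap : (Submodule.span 𝕜 (Set.range (eX : ℕ → XX 𝕜))).map
      (Submodule.subtype _) = Submodule.span 𝕜 (Set.range (b 𝕜)) := by
    rw [Submodule.map_span, ← Set.range_comp]
    rfl
  intro x
  rw [Metric.mem_closure_iff]
  intro δ hδ
  have hx : (x : Amb 𝕜) ∈ closure (Submodule.span 𝕜 (Set.range (b 𝕜)) : Set (Amb 𝕜)) := by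
    have := x.2
    rwa [← SetLike.mem_coe, Submodule.topologicalClosure_coe] at this
  rw [Metric.mem_closure_iff] at hx
  obtain ⟨y, hy, hxy⟩ := hx δ hδ
  rw [SetLike.mem_coe, ← hmap, Submodule.mem_map] at hy
  obtain ⟨z, hz, rfl⟩ := hy
  exact ⟨z, hz, hxy⟩

variable (𝕜)

/-- The model. -/
noncomputable def model : Model 𝕜 (XX 𝕜) where
  e := eX
  φ := fun g => (ev g).comp (Submodule.subtypeL _)
  φ_e := fun _ _ => rfl
  norm_φ_le := fun g x => lp.norm_apply_le_norm (by simp) (x : Amb 𝕜) g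
  norm_le := fun x _ hC h => lp.norm_le_of_forall_le (f := (x : Amb 𝕜)) hC h
  φ_eq := fun g K hK x => amb_eq g K hK x
  dense := dense_span'

/-- **Property (A) does not imply unconditionality.**  Over `𝕜 = ℝ` and over `𝕜 = ℂ` there is a
Banach space with a semi-normalized Markushevich basis, which is even a Schauder basis, that has
Property (A) but is not unconditional. -/
theorem result : ∀ (𝕜 : Type) [RCLike 𝕜],
    ∃ (X : Type) (_ : NormedAddCommGroup X) (_ : NormedSpace 𝕜 X) (_ : CompleteSpace X)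
      (e : ℕ → X) (f : ℕ → X →L[𝕜] 𝕜),
      IsBasis e f ∧ Schauder e f ∧ PropertyA e f ∧ ¬ Unconditional e f := by
  intro 𝕜 _
  exact ⟨XX 𝕜, inferInstance, inferInstance, inferInstance, (model 𝕜).e, (model 𝕜).f,
    (model 𝕜).isBasis, (model 𝕜).schauder, (model 𝕜).propertyA, (model 𝕜).not_unconditional⟩

end Pool.Agent.Results.MP_e9a5f2_an.ConditionalPropertyA
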